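import Mathlib

open MvPolynomial Finset

namespace Pool.Agent.Lib.MP_0704bf_ag

variable {n c : ℕ}

lemma exists_rel_of_adjoin {Λ : Type*} [CommRing Λ] {σ τ : Type} [Fintype σ] [Fintype τ]
    (h : Fintype.card τ < Fintype.card σ) (t : τ → Λ) (a : σ → Λ)
    (ha : ∀ s, a s ∈ Algebra.adjoin ℤ (Set.range t)) :
    ∃ D : MvPolynomial σ ℤ, D ≠ 0 ∧ aeval a D = 0 := by
  simp only [Algebra.adjoin_range_eq_range_aeval, AlgHom.mem_range] at ha
  choose ψ hψ using ha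
  have hn : ¬ AlgebraicIndependent ℤ ψ := by
    intro hi
    have := hi.cardinalMk_le_trdeg
    rw [MvPolynomial.trdeg_of_isDomain, Cardinal.mk_fintype, Cardinal.mk_fintype] at this
    simp only [Cardinal.lift_natCast, Nat.cast_le] at this
    omega
  rw [algebraicIndependent_iff] at hn
  push Not at hn
  obtain ⟨D, hD1, hD2⟩ := hn
  refine ⟨D, hD2, ?_⟩
  have : a = fun s ↦ aeval t (ψ s) := funext fun s ↦ (hψ s).symm
  rw [this, ← MvPolynomial.comp_aeval_apply, hD1, map_zero]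

/-- exponents bounded by `e` -/
noncomputable def box (e : Fin n → ℕ) : Finset (Fin n →₀ ℕ) :=
  Finset.Iic (Finsupp.equivFunOnFinite.symm e)

lemma mem_box {e : Fin n → ℕ} {s : Fin n →₀ ℕ} : s ∈ box e ↔ ∀ i, s i ≤ e i := by
  simp [box, Finsupp.le_def]

lemma eq_sum_box {R : Type*} [CommRing R] {e : Fin n → ℕ} {F : MvPolynomial (Fin n) R}
    (hF : ∀ i, F.degreeOf i ≤ e i) : F = ∑ s ∈ box e, monomial s (F.coeff s) := by
  conv_lhs => rw [F.as_sum]
  refine Finset.sum_subset (fun s hs ↦ mem_box.mpr fun i ↦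
    (monomial_le_degreeOf i hs).trans (hF i)) fun s _ hs ↦ ?_
  rw [notMem_support_iff.mp hs, map_zero]

lemma eval_eq_box {e : Fin n → ℕ} {F : MvPolynomial (Fin n) ℂ} (hF : ∀ i, F.degreeOf i ≤ e i)
    (x : Fin n → ℂ) : eval x F = ∑ s ∈ box e, F.coeff s * ∏ j, x j ^ s j := by
  conv_lhs => rw [eq_sum_box hF]
  simp [eval_monomial, Finsupp.prod_fintype]

lemma eval_pderiv_eq_box {e : Fin n → ℕ} {F : MvPolynomial (Fin n) ℂ}
    (hF : ∀ i, F.degreeOf i ≤ e i) (x : Fin n → ℂ) (i : Fin n) : eval x (pderiv i F) =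
      ∑ s ∈ box e, F.coeff s * (s i : ℂ) * ∏ j, x j ^ (s - Finsupp.single i 1 : Fin n →₀ ℕ) j := by
  conv_lhs => rw [eq_sum_box hF]
  simp only [map_sum, pderiv_monomial, eval_monomial]
  refine Finset.sum_congr rfl fun s _ ↦ ?_
  rw [Finsupp.prod_fintype _ _ (by simp)]

lemma mem_of_sum_mem {Λ ι : Type*} [CommRing Λ] (A : Subalgebra ℤ Λ) {J : Finset ι} {f : ι → Λ}
    {j₀ : ι} (h0 : j₀ ∈ J) (h1 : ∑ j ∈ J, f j ∈ A) (h2 : ∀ j ∈ J, j ≠ j₀ → f j ∈ A) :
    f j₀ ∈ A := by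
  classical
  rw [← Finset.add_sum_erase _ _ h0] at h1
  have h3 : ∑ j ∈ J.erase j₀, f j ∈ A :=
    sum_mem fun j hj ↦ h2 j (mem_of_mem_erase hj) (ne_of_mem_erase hj)
  simpa using sub_mem h1 h3

/-- the index set of the coefficients -/
abbrev Idx (e : Fin c → Fin n → ℕ) : Type := (m : Fin c) × ↥(box (e m))

/-- the coefficient vector of a tuple of polynomials -/
def coefv {R : Type*} [CommRing R] (e : Fin c → Fin n → ℕ) (F : Fin c → MvPolynomial (Fin n) R) :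
    Idx e → R := fun ms ↦ (F ms.1).coeff ms.2

lemma exists_disc_aux {e : Fin c → Fin n → ℕ} (he : ∀ m i, 1 ≤ e m i) (m₀ : Fin c) :
    ∃ D : MvPolynomial (Idx e) ℤ, D ≠ 0 ∧ ∀ (F : Fin c → MvPolynomial (Fin n) ℂ)
      (x : Fin n → ℂ) (l : Fin c → ℂ), (∀ m i, (F m).degreeOf i ≤ e m i) →
      (∀ m, eval x (F m) = 0) → (∀ i, ∑ m, l m * eval x (pderiv i (F m)) = 0) → l m₀ = 1 →
      aeval (coefv e F) D = 0 := by
  classical
  let Ω := {ω : (Fin c → MvPolynomial (Fin n) ℂ) × (Fin n → ℂ) × (Fin c → ℂ) //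
    (∀ m i, (ω.1 m).degreeOf i ≤ e m i) ∧ (∀ m, eval ω.2.1 (ω.1 m) = 0) ∧
    (∀ i, ∑ m, ω.2.2 m * eval ω.2.1 (pderiv i (ω.1 m)) = 0) ∧ ω.2.2 m₀ = 1}
  let a : Fin c → (Fin n →₀ ℕ) → Ω → ℂ := fun m s ω ↦ (ω.1.1 m).coeff s
  let Y : Fin n → Ω → ℂ := fun i ω ↦ ω.1.2.1 i
  let Λ : Fin c → Ω → ℂ := fun m ω ↦ ω.1.2.2 m
  have hz : ∀ m, (0 : Fin n →₀ ℕ) ∈ box (e m) := fun m ↦ mem_box.mpr (by simp)
  have hs : ∀ m i, Finsupp.single i 1 ∈ box (e m) := fun m i ↦ mem_box.mpr fun j ↦ by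
    rw [Finsupp.single_apply]
    split_ifs
    · exact he m j
    · exact Nat.zero_le _
  let b : Fin c ⊕ Fin n → Idx e := Sum.elim (fun m ↦ ⟨m, 0, hz m⟩)
    (fun i ↦ ⟨m₀, Finsupp.single i 1, hs m₀ i⟩)
  have hb : Function.Injective b := by
    have key : Function.Injective ((fun ms : Idx e ↦ (ms.1, (ms.2 : Fin n →₀ ℕ))) ∘ b) := by
      rintro (m | i) (m' | i') h
      · simpa [b] using h
      · simp only [b, Function.comp_apply, Sum.elim_inl, Sum.elim_inr, Prod.mk.injEq] at h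
        exact absurd h.2.symm (by simp)
      · simp only [b, Function.comp_apply, Sum.elim_inl, Sum.elim_inr, Prod.mk.injEq] at h
        exact absurd h.2 (by simp)
      · simp only [b, Function.comp_apply, Sum.elim_inr, Prod.mk.injEq, true_and] at h
        rw [Finsupp.single_left_injective one_ne_zero h]
    exact key.of_comp
  let τ := Fin n ⊕ {m : Fin c // ¬ m = m₀} ⊕ {ms : Idx e // ¬ ms ∈ Set.range b}
  let t : τ → Ω → ℂ := Sum.elim Y (Sum.elim (fun m ↦ Λ m) fun ms ↦ a ms.1.1 ms.1.2)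
  have hcard : Fintype.card τ < Fintype.card (Idx e) := by
    have h1 : Fintype.card {ms : Idx e // ms ∈ Set.range b} = c + n := by
      rw [Set.card_range_of_injective hb]
      simp
    have h2 := Fintype.card_subtype_le fun ms : Idx e ↦ ms ∈ Set.range b
    have h3 : 0 < c := m₀.pos
    simp only [τ, Fintype.card_sum, Fintype.card_subtype_compl, Fintype.card_fin,
      Fintype.card_unique, h1] at h2 ⊢
    omega
  set A := Algebra.adjoin ℤ (Set.range t) with hA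
  have hY : ∀ i, Y i ∈ A := fun i ↦ Algebra.subset_adjoin ⟨.inl i, rfl⟩
  have hΛ : ∀ m, Λ m ∈ A := fun m ↦ by
    by_cases hm : m = m₀
    · have : Λ m = 1 := funext fun ω ↦ hm ▸ ω.2.2.2.2
      rw [this]
      exact one_mem _
    · exact Algebra.subset_adjoin ⟨.inr (.inl ⟨m, hm⟩), rfl⟩
  have hgen : ∀ m s, s ∈ box (e m) → s ≠ 0 → (m = m₀ → ∀ i, s ≠ Finsupp.single i 1) →
      a m s ∈ A := by
    intro m s h1 h2 h3
    refine Algebra.subset_adjoin ⟨.inr (.inr ⟨⟨m, s, h1⟩, ?_⟩), rfl⟩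
    rintro ⟨m' | i, h⟩
    · have := congrArg (fun ms : Idx e ↦ (ms.2 : Fin n →₀ ℕ)) h
      exact h2 this.symm
    · have h4 := congrArg (fun ms : Idx e ↦ (ms.2 : Fin n →₀ ℕ)) h
      have h5 := congrArg (fun ms : Idx e ↦ ms.1) h
      exact h3 h5.symm i h4.symm
  have hmon : ∀ s : Fin n →₀ ℕ, ∏ j, Y j ^ s j ∈ A :=
    fun s ↦ prod_mem fun j _ ↦ pow_mem (hY j) _
  have hlin : ∀ i, a m₀ (Finsupp.single i 1) ∈ A := by
    intro i
    let T : Fin c → (Fin n →₀ ℕ) → Ω → ℂ := fun m s ↦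
      Λ m * (a m s * (s i : Ω → ℂ) * ∏ j, Y j ^ (s - Finsupp.single i 1 : Fin n →₀ ℕ) j)
    have hT : ∀ m, ∀ s ∈ box (e m), (m = m₀ → s ≠ Finsupp.single i 1) → T m s ∈ A := by
      intro m s h1 h2
      by_cases h3 : s i = 0
      · simp [T, h3]
      · refine mul_mem (hΛ m) (mul_mem (mul_mem (hgen m s h1 ?_ ?_) (natCast_mem _ _)) (hmon _))
        · rintro rfl
          exact h3 rfl
        · rintro hm i' rfl
          by_cases hi : i' = i
          · exact h2 hm (hi ▸ rfl)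
          · exact h3 (by simp [hi])
    have h0 : ∑ m, ∑ s ∈ box (e m), T m s = 0 := by
      funext ω
      rw [Pi.zero_apply, ← ω.2.2.2.1 i, Finset.sum_apply]
      refine Finset.sum_congr rfl fun m _ ↦ ?_
      rw [eval_pderiv_eq_box (ω.2.1 m), Finset.mul_sum, Finset.sum_apply]
      refine Finset.sum_congr rfl fun s _ ↦ ?_
      simp [T, Λ, a, Y]
    have h1 : ∑ s ∈ box (e m₀), T m₀ s ∈ A :=
      mem_of_sum_mem A (f := fun m ↦ ∑ s ∈ box (e m), T m s) (mem_univ m₀) (h0 ▸ zero_mem _)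
        fun m _ hm ↦ sum_mem fun s hs ↦ hT m s hs fun h ↦ absurd h hm
    have h2 := mem_of_sum_mem A (hs m₀ i) h1 fun s h3 h4 ↦ hT m₀ s h3 fun _ ↦ h4
    have h5 : T m₀ (Finsupp.single i 1) = a m₀ (Finsupp.single i 1) := by
      funext ω
      have := ω.2.2.2.2
      simp [T, Λ, this]
    rwa [h5] at h2
  have hne : ∀ m s, s ∈ box (e m) → s ≠ 0 → a m s ∈ A := by
    intro m s h1 h2
    by_cases h3 : m = m₀ ∧ ∃ i, s = Finsupp.single i 1
    · obtain ⟨rfl, i, rfl⟩ := h3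
      exact hlin i
    · exact hgen m s h1 h2 fun hm i hi ↦ h3 ⟨hm, i, hi⟩
  have hall : ∀ ms : Idx e, a ms.1 ms.2 ∈ A := by
    rintro ⟨m, s, h1⟩
    by_cases h2 : s = 0
    · subst h2
      have h0 : ∑ s ∈ box (e m), a m s * ∏ j, Y j ^ s j = 0 := by
        funext ω
        rw [Pi.zero_apply, ← ω.2.2.1 m, eval_eq_box (ω.2.1 m), Finset.sum_apply]
        simp [a, Y]
      have := mem_of_sum_mem A (f := fun s ↦ a m s * ∏ j, Y j ^ s j) h1 (h0 ▸ zero_mem _)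
        fun s h3 h4 ↦ mul_mem (hne m s h3 h4) (hmon s)
      have h5 : a m 0 * ∏ j, Y j ^ (0 : Fin n →₀ ℕ) j = a m 0 := by simp
      rwa [h5] at this
    · exact hne m s h1 h2
  obtain ⟨D, hD1, hD2⟩ := exists_rel_of_adjoin hcard t (fun ms ↦ a ms.1 ms.2) hall
  refine ⟨D, hD1, fun F x l h1 h2 h3 h4 ↦ ?_⟩
  let ω : Ω := ⟨(F, x, l), h1, h2, h3, h4⟩
  have := congrArg (Pi.evalRingHom (fun _ ↦ ℂ) ω).toIntAlgHom hD2
  rw [MvPolynomial.comp_aeval_apply, map_zero] at this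
  exact this

/-- a hypersurface containing all tuples with a singular common zero -/
theorem exists_disc {e : Fin c → Fin n → ℕ} (he : ∀ m i, 1 ≤ e m i) :
    ∃ D : MvPolynomial (Idx e) ℤ, D ≠ 0 ∧ ∀ (F : Fin c → MvPolynomial (Fin n) ℂ),
      (∀ m i, (F m).degreeOf i ≤ e m i) → aeval (coefv e F) D ≠ 0 →
      ∀ x : Fin n → ℂ, (∀ m, eval x (F m) = 0) →
        LinearIndependent ℂ fun m i ↦ eval x (pderiv i (F m)) := by
  choose D hD1 hD2 using exists_disc_aux he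
  refine ⟨∏ m, D m, Finset.prod_ne_zero_iff.mpr fun m _ ↦ hD1 m, fun F hF hD x hx ↦ ?_⟩
  by_contra hn
  obtain ⟨l, hl, m₀, hm₀⟩ := Fintype.not_linearIndependent_iff.mp hn
  apply hD
  rw [map_prod]
  refine Finset.prod_eq_zero (mem_univ m₀) (hD2 m₀ F x (fun m ↦ l m / l m₀) hF hx
    (fun i ↦ ?_) (div_self hm₀))
  have := congrFun hl i
  simp only [Finset.sum_apply, Pi.smul_apply, smul_eq_mul, Pi.zero_apply] at this
  simp only [div_mul_eq_mul_div, ← Finset.sum_div, this, zero_div]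

end Pool.Agent.Lib.MP_0704bf_ag
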