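import Mathlib

open MvPolynomial Finset

namespace Pool.Agent.Lib.MP_0704bf_ag

variable {n c : ℕ}

lemma dvd_eval_sub {R σ : Type*} [CommRing R] {a : R} {u v : σ → R} (h : ∀ i, a ∣ u i - v i)
    (H : MvPolynomial σ R) : a ∣ eval u H - eval v H := by
  induction H using MvPolynomial.induction_on with
  | C r => simp
  | add p q hp hq =>
    have := dvd_add hp hq
    simp only [map_add]
    convert this using 1
    ring
  | mul_X p i hp =>
    have := dvd_add (hp.mul_right (u i)) ((h i).mul_left (eval v p))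
    simp only [map_mul, eval_X]
    convert this using 1
    ring

lemma exists_approx {R : Type*} [CommRing R] (hcn : c ≤ n) (q : R)
    (H : Fin c → MvPolynomial (Fin n) R) (k : ℕ) :
    ∃ y : Fin n → R, ∀ m, q ^ k ∣ eval y (X (Fin.castLE hcn m) + C q * H m) := by
  induction k with
  | zero => exact ⟨0, by simp⟩
  | succ k ih =>
    obtain ⟨y, hy⟩ := ih
    let y' : Fin n → R := fun i ↦ if h : (i : ℕ) < c then -(q * eval y (H ⟨i, h⟩)) else y i
    have h1 : ∀ i, q ^ k ∣ y' i - y i := by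
      intro i
      simp only [y']
      split_ifs with h
      · have := (hy ⟨i, h⟩).neg_right
        simp only [map_add, eval_X, map_mul, eval_C] at this
        convert this using 1
        rw [show Fin.castLE hcn ⟨i, h⟩ = i from rfl]
        ring
      · simp
    refine ⟨y', fun m ↦ ?_⟩
    have h2 : y' (Fin.castLE hcn m) = -(q * eval y (H m)) := by simp [y']
    have h3 := mul_dvd_mul_left q (dvd_eval_sub h1 (H m))
    simp only [map_add, eval_X, map_mul, eval_C, h2]
    convert h3 using 1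
    · ring
    · ring

lemma exists_lift {σ : Type*} {H : MvPolynomial σ ℂ} (h : ∀ s, IsIntegral ℤ (H.coeff s)) :
    ∃ H' : MvPolynomial σ (integralClosure ℤ ℂ), map (algebraMap _ ℂ) H' = H := by
  refine ⟨∑ s ∈ H.support, monomial s ⟨H.coeff s, h s⟩, ?_⟩
  conv_rhs => rw [H.as_sum]
  simp [map_monomial]

lemma int_dvd_of_dvd {a b : ℤ} (hb : b ≠ 0) (h : (b : integralClosure ℤ ℂ) ∣ a) : b ∣ a := by
  obtain ⟨r, hr⟩ := h
  have h1 : (a : ℂ) = b * r := by exact_mod_cast congrArg Subtype.val hr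
  have hb' : (b : ℂ) ≠ 0 := by exact_mod_cast hb
  have h2 : (r : ℂ) = algebraMap ℚ ℂ ((a : ℚ) / b) := by
    simp only [eq_ratCast]
    push_cast
    rw [h1]
    field_simp
  have h3 : IsIntegral ℤ ((a : ℚ) / b) := by
    rw [← isIntegral_algebraMap_iff (algebraMap ℚ ℂ).injective, ← h2]
    exact r.2
  obtain ⟨z, hz⟩ := IsIntegrallyClosed.isIntegral_iff.mp h3
  refine ⟨z, ?_⟩
  have hb'' : (b : ℚ) ≠ 0 := by exact_mod_cast hb
  have : (a : ℚ) = b * z := by
    simp only [eq_intCast] at hz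
    rw [hz]
    field_simp
  exact_mod_cast this

attribute [local instance] MvPolynomial.algebraMvPolynomial FractionRing.liftAlgebra in
theorem exists_zero (hcn : c ≤ n) {q : ℤ} (hq : 2 ≤ q) (H : Fin c → MvPolynomial (Fin n) ℂ)
    (hH : ∀ m s, IsIntegral ℤ ((H m).coeff s)) :
    ∃ x : Fin n → ℂ, ∀ m, eval x (X (Fin.castLE hcn m) + C (q : ℂ) * H m) = 0 := by
  choose H' hH' using fun m ↦ exists_lift (hH m)
  let R := integralClosure ℤ ℂ
  let K := FractionRing R
  let F : Fin c → MvPolynomial (Fin n) R := fun m ↦ X (Fin.castLE hcn m) + C (q : R) * H' m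
  let I : Ideal (MvPolynomial (Fin n) R) := Ideal.span (Set.range F)
  by_contra hne
  push Not at hne
  have h1 : zeroLocus ℂ (I.map (algebraMap _ (MvPolynomial (Fin n) K))) = ∅ := by
    rw [Set.eq_empty_iff_forall_notMem]
    intro x hx
    obtain ⟨m, hm⟩ := hne x
    apply hm
    have := hx _ (Ideal.mem_map_of_mem _ (Ideal.subset_span ⟨m, rfl⟩))
    rw [← this, ← hH']
    change _ = aeval x (map (algebraMap R K) (F m))
    rw [aeval_map_algebraMap]
    simp only [F, map_add, map_mul, eval_X, map_intCast, eval_map, aeval_def, eval₂_X]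
    rfl
  have h2 : I.map (algebraMap _ (MvPolynomial (Fin n) K)) = ⊤ := by
    rw [← Ideal.radical_eq_top, ← vanishingIdeal_zeroLocus_eq_radical (K := ℂ), h1,
      vanishingIdeal_empty]
  obtain ⟨⟨f, _, a, ha, rfl⟩, hf⟩ := (IsLocalization.mem_map_algebraMap_iff
    ((nonZeroDivisors R).map (C (σ := Fin n))) (MvPolynomial (Fin n) K)).mp
    ((Ideal.eq_top_iff_one _).mp h2)
  rw [one_mul] at hf
  have h3 : C a ∈ I := by
    have : C a = (f : MvPolynomial (Fin n) R) :=
      map_injective _ (IsFractionRing.injective R K) hf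
    exact this ▸ f.2
  obtain ⟨b, hb, hab⟩ := (Algebra.IsAlgebraic.isAlgebraic (R := ℤ) a).exists_nonzero_dvd ha
  have h4 : ∀ k : ℕ, q ^ k ∣ b := by
    intro k
    obtain ⟨y, hy⟩ := exists_approx hcn (q : R) H' k
    have h5 : I ≤ (Ideal.span {(q : R) ^ k}).comap (eval y) := by
      rw [Ideal.span_le]
      rintro _ ⟨m, rfl⟩
      exact Ideal.mem_span_singleton.mpr (hy m)
    have h6 := Ideal.mem_span_singleton.mp (h5 h3)
    rw [eval_C] at h6
    refine int_dvd_of_dvd (by positivity) ?_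
    push_cast
    exact h6.trans hab
  have h5 := Int.le_of_dvd (abs_pos.mpr hb) ((dvd_abs _ _).mpr (h4 b.natAbs))
  have h6 : (b.natAbs : ℤ) < 2 ^ b.natAbs := by exact_mod_cast Nat.lt_two_pow_self
  have h7 : (2 : ℤ) ^ b.natAbs ≤ q ^ b.natAbs := by gcongr
  rw [Int.natCast_natAbs] at h6
  omega

end Pool.Agent.Lib.MP_0704bf_ag
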