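import Pool.Agent.Lib.MP_0704bf_ag.Val
import Pool.Agent.Lib.MP_0704bf_ag.Bertini
import Pool.Agent.Lib.MP_0704bf_ag.Nonempty
import Pool.Agent.Lib.helper6.ModPoly

open MvPolynomial Finset UpperHalfPlane
open scoped MatrixGroups

namespace Pool.Agent.Lib.MP_0704bf_ag

open Pool.Agent.Lib.helper6

variable {n c : ℕ}

lemma exists_crt (ι : Type) [Fintype ι] : ∃ p u : ι → ℤ, (∀ i, 2 ≤ p i) ∧
    (∀ i, p i ∣ u i - 1) ∧ ∀ i j, j ≠ i → p i ∣ u j := by
  classical
  let p : ι → ℕ := fun i ↦ Nat.nth Nat.Prime (Fintype.equivFin ι i)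
  have hp : ∀ i, (p i).Prime := fun i ↦ Nat.prime_nth_prime _
  have hinj : Function.Injective p := fun i j h ↦
    (Fintype.equivFin ι).injective (Fin.ext (Nat.nth_injective Nat.infinite_setOfPred_prime h))
  have hc : ∀ i, IsCoprime (p i : ℤ) (∏ j ∈ univ.erase i, (p j : ℤ)) := fun i ↦
    IsCoprime.prod_right fun j hj ↦ Nat.isCoprime_iff_coprime.mpr
      ((Nat.coprime_primes (hp i) (hp j)).mpr fun h ↦ ne_of_mem_erase hj (hinj h).symm)
  choose a b hab using hc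
  refine ⟨fun i ↦ p i, fun i ↦ b i * ∏ j ∈ univ.erase i, (p j : ℤ),
    fun i ↦ Int.ofNat_le.mpr (hp i).two_le, fun i ↦ ⟨-a i, by linear_combination hab i⟩,
    fun i j hij ↦ Dvd.dvd.mul_left (Finset.dvd_prod_of_mem _ (by simpa using hij.symm)) _⟩

/-- polynomials with bounded degree in each variable -/
def bd (R : Type*) [CommRing R] (e : Fin n → ℕ) : Submodule R (MvPolynomial (Fin n) R) where
  carrier := {F | ∀ i, F.degreeOf i ≤ e i}
  add_mem' ha hb i := (degreeOf_add_le _ _ _).trans (max_le (ha i) (hb i))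
  zero_mem' i := by simp
  smul_mem' r F hF i := by
    rw [smul_eq_C_mul]
    exact (degreeOf_C_mul_le _ _ _).trans (hF i)

lemma C_mul_mem {R : Type*} [CommRing R] {e : Fin n → ℕ} (r : R) {F : MvPolynomial (Fin n) R}
    (hF : F ∈ bd R e) : C r * F ∈ bd R e := by
  rw [← smul_eq_C_mul]
  exact Submodule.smul_mem _ r hF

lemma map_mem_bd {e : Fin n → ℕ} {F : MvPolynomial (Fin n) ℤ} (hF : F ∈ bd ℤ e) :
    map (Int.castRingHom ℂ) F ∈ bd ℂ e := fun i ↦ by
  rw [degreeOf_le_iff]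
  intro s hs
  exact (monomial_le_degreeOf i (support_map_subset _ _ hs)).trans (hF i)

lemma exists_base {ι : Type} [Fintype ι] {e : Fin c → Fin n → ℕ}
    (E : ι → Fin c → MvPolynomial (Fin n) ℤ) (hE : ∀ j m, E j m ∈ bd ℤ (e m))
    (D : MvPolynomial (Idx e) ℤ) (hD : D ≠ 0) :
    ∃ (N : ℕ) (F₀ : Fin c → MvPolynomial (Fin n) ℤ), 0 < N ∧ (∀ m, F₀ m ∈ bd ℤ (e m)) ∧
      ¬ (N : ℤ) ∣ eval (coefv e F₀) D ∧
      ∀ j, ∃ (p : ℤ) (H : Fin c → MvPolynomial (Fin n) ℤ), 2 ≤ p ∧ p ∣ N ∧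
        (∀ m, H m ∈ bd ℤ (e m)) ∧ ∀ m, F₀ m = E j m + C p * H m := by
  classical
  obtain ⟨p, u, hp, hu1, hu2⟩ := exists_crt ι
  let F₁ : Fin c → MvPolynomial (Fin n) ℤ := fun m ↦ ∑ j, C (u j) * E j m
  have hF₁ : ∀ m, F₁ m ∈ bd ℤ (e m) := fun m ↦ sum_mem fun j _ ↦ C_mul_mem _ (hE j m)
  set N₁ : ℤ := ∏ j, p j with hN₁
  have hN₁0 : 0 < N₁ := Finset.prod_pos fun j _ ↦ by have := hp j; omega
  obtain ⟨w, hw⟩ : ∃ w : Idx e → ℤ, eval (fun s ↦ coefv e F₁ s + N₁ * w s) D ≠ 0 := by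
    by_contra h
    push Not at h
    refine hD (MvPolynomial.funext_set (fun s ↦ Set.range fun t : ℤ ↦ coefv e F₁ s + N₁ * t)
      (fun s ↦ Set.infinite_range_of_injective fun a b hab ↦ ?_) fun x hx ↦ ?_)
    · simpa [hN₁0.ne'] using hab
    · choose w hw using fun s ↦ hx s (Set.mem_univ s)
      rw [map_zero, ← h w]
      congr 2
      exact funext fun s ↦ (hw s).symm
  let H₀ : Fin c → MvPolynomial (Fin n) ℤ := fun m ↦ ∑ s : box (e m), monomial s.1 (w ⟨m, s⟩)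
  have hH₀ : ∀ m, H₀ m ∈ bd ℤ (e m) := fun m ↦ sum_mem fun s _ i ↦ by
    rw [degreeOf_le_iff]
    intro t ht
    rw [Finset.mem_singleton.mp (support_monomial_subset ht)]
    exact mem_box.mp s.2 i
  have hco : coefv e (fun m ↦ F₁ m + C N₁ * H₀ m) = fun s ↦ coefv e F₁ s + N₁ * w s := by
    funext ⟨m, s⟩
    simp only [coefv, coeff_add, coeff_C_mul, H₀, coeff_sum, coeff_monomial]
    rw [Finset.sum_eq_single s (fun b _ hb ↦ if_neg fun h ↦ hb (Subtype.ext h)) (by simp),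
      if_pos rfl]
  set D₀ := eval (fun s ↦ coefv e F₁ s + N₁ * w s) D with hD₀
  have hpos : 0 < N₁ * (2 * |D₀|) := by positivity
  refine ⟨(N₁ * (2 * |D₀|)).toNat, fun m ↦ F₁ m + C N₁ * H₀ m, by omega,
    fun m ↦ add_mem (hF₁ m) (C_mul_mem _ (hH₀ m)), ?_, fun j ↦ ?_⟩
  · rw [hco, ← hD₀, Int.toNat_of_nonneg hpos.le]
    intro h
    have h1 := Int.le_of_dvd (abs_pos.mpr hw) ((dvd_abs _ _).mpr h)
    have h2 := abs_pos.mpr hw
    nlinarith
  · obtain ⟨N', hN'⟩ : p j ∣ N₁ := Finset.dvd_prod_of_mem _ (mem_univ j)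
    obtain ⟨v, hv⟩ := hu1 j
    choose v' hv' using fun j' : {j' // j' ≠ j} ↦ hu2 j j'.1 j'.2
    refine ⟨p j, fun m ↦ C v * E j m + ∑ j' : {j' // j' ≠ j}, C (v' j') * E j' m + C N' * H₀ m,
      hp j, ?_, fun m ↦ add_mem (add_mem (C_mul_mem _ (hE j m))
        (sum_mem fun j' _ ↦ C_mul_mem _ (hE _ m))) (C_mul_mem _ (hH₀ m)), fun m ↦ ?_⟩
    · rw [Int.toNat_of_nonneg hpos.le, hN', mul_assoc]
      exact dvd_mul_right _ _
    · have h1 : F₁ m = C (u j) * E j m + ∑ j' : {j' // j' ≠ j}, C (u j') * E j' m := by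
        simp only [F₁]
        rw [Fintype.sum_eq_add_sum_subtype_ne _ j]
      have h2 : u j = 1 + p j * v := by linear_combination hv
      beta_reduce
      rw [h1, h2, hN']
      simp only [hv', map_mul, map_add, map_one, mul_add, Finset.mul_sum, mul_assoc]
      ring

lemma aeval_ne_zero {σ : Type*} {N : ℕ} (hN : 0 < N) {D : MvPolynomial σ ℤ} {v : σ → ℤ}
    (h : ¬ (N : ℤ) ∣ eval v D) {g : σ → ℂ} (hg : ∀ s, IsIntegral ℤ (g s)) :
    aeval (fun s ↦ (v s : ℂ) + N * g s) D ≠ 0 := by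
  intro h0
  let R := integralClosure ℤ ℂ
  let u : σ → R := fun s ↦ (v s : R) + N * ⟨g s, hg s⟩
  have h1 : ((N : ℤ) : R) ∣ eval (fun s ↦ (v s : R)) (map (Int.castRingHom R) D) -
      eval u (map (Int.castRingHom R) D) :=
    dvd_eval_sub (fun s ↦ ⟨-⟨g s, hg s⟩, by simp [u]⟩) _
  have h2 : eval u (map (Int.castRingHom R) D) = 0 := by
    apply Subtype.ext
    have := MvPolynomial.comp_aeval_apply u R.val D
    rw [eval_map]
    refine Eq.trans ?_ h0
    exact this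
  have h3 : eval (fun s ↦ (v s : R)) (map (Int.castRingHom R) D) = ((eval v D : ℤ) : R) := by
    rw [eval_map]
    exact (eval₂_comp (Int.castRingHom R) v D).symm
  rw [h2, sub_zero, h3] at h1
  exact h (int_dvd_of_dvd (by exact_mod_cast hN.ne') h1)

lemma card_le_dimOf {r : ℕ} (cl : Fin n → Option (Fin r)) (g : Fin n → GL (Fin 2) ℝ)
    (w : Fin n → ℂ) : (((univ.image cl).erase none).card : WithBot ℕ∞) ≤
      dimOf {x | ∃ z : Fin r → ℍ, ∀ i, (cl i = none → x i = w i) ∧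
        (∀ k, cl i = some k → x i = jInv (g i • z k))} := by
  classical
  set T := {x : Fin n → ℂ | ∃ z : Fin r → ℍ, ∀ i, (cl i = none → x i = w i) ∧
    (∀ k, cl i = some k → x i = jInv (g i • z k))} with hT
  set U := (univ.image cl).erase none with hU
  have h1 : ∀ a : U, ∃ i k, cl i = a ∧ (a : Option (Fin r)) = some k := by
    rintro ⟨a, ha⟩
    simp only [hU, mem_erase, mem_image, mem_univ, true_and] at ha
    obtain ⟨h2, i, hi⟩ := ha
    obtain ⟨k, hk⟩ := Option.ne_none_iff_exists'.mp h2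
    exact ⟨i, k, hi, hk⟩
  choose rep lab hrep hlab using h1
  have hind : AlgebraicIndependent ℂ
      fun a : U ↦ Ideal.Quotient.mk (vanishingIdeal ℂ T) (X (rep a)) := by
    rw [algebraicIndependent_iff]
    intro p hp
    have h2 : rename rep p ∈ vanishingIdeal ℂ T := by
      rw [← Ideal.Quotient.eq_zero_iff_mem, ← hp]
      have : (Ideal.Quotient.mkₐ ℂ (vanishingIdeal ℂ T)).comp (rename rep) =
          aeval fun a : U ↦ Ideal.Quotient.mk (vanishingIdeal ℂ T) (X (rep a)) := by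
        ext a
        simp
      exact DFunLike.congr_fun this p
    refine MvPolynomial.funext_set (fun _ ↦ Set.range jInv) (fun _ ↦ range_jInv_infinite)
      fun y hy ↦ ?_
    choose τ hτ using fun a ↦ hy a (Set.mem_univ a)
    let z : Fin r → ℍ := fun k ↦
      if h : some k ∈ U then (g (rep ⟨_, h⟩))⁻¹ • τ ⟨_, h⟩ else UpperHalfPlane.I
    let x : Fin n → ℂ := fun i ↦ (cl i).elim (w i) fun k ↦ jInv (g i • z k)
    have hx : x ∈ T := ⟨z, fun i ↦ ⟨fun h ↦ by simp [x, h], fun k h ↦ by simp [x, h]⟩⟩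
    have h3 := h2 x hx
    rw [aeval_rename] at h3
    have h4 : x ∘ rep = y := by
      funext a
      have h5 : some (lab a) ∈ U := hlab a ▸ a.2
      have h6 : (⟨some (lab a), h5⟩ : U) = a := Subtype.ext (hlab a).symm
      simp only [Function.comp_apply, x, hrep, hlab, Option.elim_some, z, dif_pos h5, h6,
        smul_inv_smul, hτ]
    rw [map_zero, ← h4]
    exact h3
  have := card_le_dim hind
  rwa [Nat.card_eq_fintype_card, Fintype.card_coe] at this

lemma dim_add_le_special {e : Fin c → Fin n → ℕ} (he : ∀ m i, 1 ≤ e m i)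
    {F : Fin c → MvPolynomial (Fin n) ℂ} (hF : Shape e F) {T Z : Set (Fin n → ℂ)}
    (hT : IsSpecial T) (hZ : IsSubvariety Z) (hZV : ∀ x ∈ Z, ∀ m, eval x (F m) = 0)
    (hZT : Z ⊆ T) : dimOf Z + c ≤ dimOf T := by
  obtain ⟨r, cl, g, w, hg, hw, rfl⟩ := hT
  obtain ⟨P, hP, rfl⟩ := hZ
  refine le_trans ?_ (card_le_dimOf cl _ _)
  have hv := MvPolynomial.IsPrime.vanishingIdeal_zeroLocus (K := ℂ) P
  unfold dimOf
  rw [hv]
  refine dim_add_le he hF P (fun m ↦ hv ▸ fun x hx ↦ hZV x hx m) cl (fun i hi ↦ ?_)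
    fun i i' k hi hi' ↦ ?_
  · refine ⟨jInv (w i), Pool.Agent.Lib.helper6.IsCM.isIntegral (hw i), hv ▸ fun x hx ↦ ?_⟩
    obtain ⟨z, hz⟩ := hZT hx
    simp [(hz i).1 hi]
  · obtain ⟨Φ, h1, h2, h3⟩ := exists_rel (g i) (g i') (hg i) (hg i')
    refine ⟨Φ, h1, h2, hv ▸ fun x hx ↦ ?_⟩
    obtain ⟨z, hz⟩ := hZT hx
    have h4 := h3 (z k)
    rw [← (hz i).2 k hi, ← (hz i').2 k hi', ← Polynomial.eval₂_eq_eval_map] at h4
    rw [← h4]
    have h5 := Polynomial.hom_eval₂ Φ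
      (Polynomial.aeval (X i' : MvPolynomial (Fin n) ℂ)).toRingHom
      (aeval x : MvPolynomial (Fin n) ℂ →ₐ[ℂ] ℂ).toRingHom (X i)
    refine h5.trans ?_
    congr 1
    · ext a <;> simp
    · simp

lemma dim_component {e : Fin c → Fin n → ℕ} (he : ∀ m i, 1 ≤ e m i)
    {F : Fin c → MvPolynomial (Fin n) ℂ} (hF : Shape e F) {W : Set (Fin n → ℂ)}
    (hW : Maximal (fun W ↦ IsSubvariety W ∧ W ⊆ {x | ∀ m, eval x (F m) = 0}) W) :
    dimOf W + c = n := by
  classical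
  obtain ⟨⟨P, hP, rfl⟩, hWV⟩ := hW.prop
  have hv := MvPolynomial.IsPrime.vanishingIdeal_zeroLocus (K := ℂ) P
  have hFP : ∀ m, F m ∈ P := fun m ↦ hv ▸ fun x hx ↦ hWV hx m
  unfold dimOf
  rw [hv]
  apply le_antisymm
  · refine (dim_add_le he hF P hFP some (by simp) fun i i' k hi hi' ↦ ?_).trans ?_
    · obtain rfl : i = i' := Option.some_inj.mp (hi.trans hi'.symm)
      refine ⟨Polynomial.X - Polynomial.C Polynomial.X, Polynomial.monic_X_sub_C _,
        fun k l ↦ ?_, by simp⟩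
      simp only [Polynomial.coeff_sub, Polynomial.coeff_X, Polynomial.coeff_C]
      refine IsIntegral.sub ?_ ?_
      · split_ifs
        · rw [Polynomial.coeff_one]
          split_ifs
          · exact isIntegral_one
          · exact isIntegral_zero
        · simpa using isIntegral_zero
      · split_ifs
        · rw [Polynomial.coeff_X]
          split_ifs
          · exact isIntegral_one
          · exact isIntegral_zero
        · simpa using isIntegral_zero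
    · have := (Finset.card_erase_le (s := (univ : Finset (Fin n)).image some) (a := none)).trans
        Finset.card_image_le
      rw [card_univ, Fintype.card_fin] at this
      exact_mod_cast this
  · have hmin : P ∈ (Ideal.span (↑(univ.image F) : Set (MvPolynomial (Fin n) ℂ))).minimalPrimes := by
      refine ⟨⟨hP, Ideal.span_le.mpr ?_⟩, fun Q hQ hQP ↦ ?_⟩
      · intro f hf
        obtain ⟨m, -, rfl⟩ := Finset.mem_image.mp (Finset.mem_coe.mp hf)
        exact hFP m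
      · have h1 : zeroLocus ℂ Q ⊆ zeroLocus ℂ P := by
          refine hW.le_of_ge ⟨⟨Q, hQ.1, rfl⟩, fun x hx m ↦ ?_⟩ (zeroLocus_anti_mono hQP)
          exact hx _ (hQ.2 (Ideal.subset_span (by simp)))
        have := hQ.1
        rw [← hv, ← MvPolynomial.IsPrime.vanishingIdeal_zeroLocus (K := ℂ) Q]
        exact vanishingIdeal_anti_mono h1
    have h1 : P.height ≤ c := (Ideal.height_le_card_of_mem_minimalPrimes_span_finset hmin).trans
      (by exact_mod_cast Finset.card_image_le.trans (by simp))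
    refine (le_height_add_dim ℂ n P hP).trans ?_
    rw [add_comm]
    exact add_le_add_right (by exact_mod_cast h1) _

theorem main (hcn : c ≤ n) (e : Fin c → Fin n → ℕ) (he : ∀ m i, 1 ≤ e m i) :
    ∃ (N : ℕ) (F₀ : Fin c → MvPolynomial (Fin n) ℤ), 0 < N ∧
      (∀ m i, (F₀ m).degreeOf i ≤ e m i) ∧
      ∀ G : Fin c → MvPolynomial (Fin n) ℂ, (∀ m i, (G m).degreeOf i ≤ e m i) →
        (∀ m s, IsIntegral ℤ ((G m).coeff s)) →
        ∀ F : Fin c → MvPolynomial (Fin n) ℂ,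
          (∀ m, F m = map (Int.castRingHom ℂ) (F₀ m) + C (N : ℂ) * G m) →
          (∃ x : Fin n → ℂ, ∀ m, eval x (F m) = 0) ∧
          (∀ x : Fin n → ℂ, (∀ m, eval x (F m) = 0) →
            LinearIndependent ℂ fun m i ↦ eval x (pderiv i (F m))) ∧ Shape e F := by
  obtain ⟨D, hD1, hD2⟩ := exists_disc he
  let E : Option (Fin n → Option (Fin n)) → Fin c → MvPolynomial (Fin n) ℤ := fun j m ↦
    j.elim (X (Fin.castLE hcn m)) fun ρ ↦ patt ρ (e m) m
  have hE : ∀ j m, E j m ∈ bd ℤ (e m) := by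
    rintro (_ | ρ) m i
    · simp only [E, Option.elim_none, degreeOf_X]
      split_ifs
      · exact he m i
      · exact Nat.zero_le _
    · exact degreeOf_patt ρ _ _ i
  obtain ⟨N, F₀, hN, h1, h2, h3⟩ := exists_base E hE D hD1
  refine ⟨N, F₀, hN, h1, fun G hG1 hG2 F hF ↦ ?_⟩
  have key : ∀ j, ∃ (p : ℤ) (H : Fin c → MvPolynomial (Fin n) ℂ), 2 ≤ p ∧
      (∀ m i, (H m).degreeOf i ≤ e m i) ∧ (∀ m s, IsIntegral ℤ ((H m).coeff s)) ∧
      ∀ m, F m = map (Int.castRingHom ℂ) (E j m) + C (p : ℂ) * H m := by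
    intro j
    obtain ⟨p, H, hp, ⟨N', hN'⟩, hH1, hH2⟩ := h3 j
    refine ⟨p, fun m ↦ map (Int.castRingHom ℂ) (H m) + C (N' : ℂ) * G m, hp,
      fun m ↦ add_mem (map_mem_bd (hH1 m)) (C_mul_mem (e := e m) _ (hG1 m)), fun m s ↦ ?_,
      fun m ↦ ?_⟩
    · rw [coeff_add, coeff_C_mul, coeff_map]
      exact (isIntegral_intCast _).add ((isIntegral_intCast _).mul (hG2 m s))
    · have : (N : ℂ) = p * N' := by exact_mod_cast hN'
      rw [hF, hH2, this]
      simp only [map_add, map_mul, eq_intCast, map_intCast]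
      ring
  refine ⟨?_, hD2 F (fun m ↦ ?_) ?_, fun ρ ↦ key (some ρ)⟩
  · obtain ⟨p, H, hp, -, hH, hFH⟩ := key none
    obtain ⟨x, hx⟩ := exists_zero hcn hp H hH
    exact ⟨x, fun m ↦ by simpa [hFH, E] using hx m⟩
  · rw [hF]
    exact add_mem (map_mem_bd (h1 m)) (C_mul_mem (e := e m) _ (hG1 m))
  · have : coefv e F = fun s ↦ ((coefv e F₀ s : ℤ) : ℂ) + N * coefv e G s := by
      funext s
      simp only [coefv, hF, coeff_add, coeff_C_mul, coeff_map, eq_intCast]
    rw [this]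
    exact aeval_ne_zero hN h2 fun s ↦ hG2 _ _

end Pool.Agent.Lib.MP_0704bf_ag
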