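import Mathlib

open UpperHalfPlane MvPolynomial
open scoped MatrixGroups

namespace Pool.Agent.Lib.MP_0704bf_ag

/-- Klein's modular invariant -/
noncomputable def jInv (τ : ℍ) : ℂ := ModularForm.E₄ τ ^ 3 / ModularForm.discriminant τ

/-- imaginary quadratic points of the upper half plane -/
def IsCM (τ : ℍ) : Prop :=
  ∃ a b c : ℤ, a ≠ 0 ∧ (a : ℂ) * (τ : ℂ) ^ 2 + (b : ℂ) * (τ : ℂ) + (c : ℂ) = 0

/-- special subvarieties of `Y(1)^n = ℂ^n` -/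
def IsSpecial {n : ℕ} (T : Set (Fin n → ℂ)) : Prop :=
  ∃ (r : ℕ) (cl : Fin n → Option (Fin r)) (g : Fin n → GL (Fin 2) ℚ) (w : Fin n → ℍ),
    (∀ i, 0 < (g i).val.det) ∧ (∀ i, IsCM (w i)) ∧
    T = {x | ∃ z : Fin r → ℍ, ∀ i,
      (cl i = none → x i = jInv (w i)) ∧
      (∀ k, cl i = some k →
        x i = jInv (Matrix.GeneralLinearGroup.map (Rat.castHom ℝ) (g i) • z k))}

/-- irreducible Zariski closed subsets of `ℂ^n` -/
def IsSubvariety {n : ℕ} (Z : Set (Fin n → ℂ)) : Prop :=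
  ∃ P : Ideal (MvPolynomial (Fin n) ℂ), P.IsPrime ∧ Z = zeroLocus ℂ P

/-- dimension of (the Zariski closure of) a subset of `ℂ^n` -/
noncomputable def dimOf {n : ℕ} (S : Set (Fin n → ℂ)) : WithBot ℕ∞ :=
  ringKrullDim (MvPolynomial (Fin n) ℂ ⧸ vanishingIdeal ℂ S)

end Pool.Agent.Lib.MP_0704bf_ag
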