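import Pool.Agent.Lib.helper6.Dim

open MvPolynomial Finset

namespace Pool.Agent.Lib.MP_0704bf_ag

open Pool.Agent.Lib.helper6

variable {n : ℕ}

/-- exponent vector supported on the coordinates whose label lies in `S` -/
noncomputable def expo (ρ : Fin n → Option (Fin n)) (e : Fin n → ℕ) (S : Finset (Fin n)) :
    Fin n →₀ ℕ :=
  Finsupp.equivFunOnFinite.symm fun i ↦ if ∃ k ∈ S, ρ i = some k then e i else 0

lemma expo_apply (ρ : Fin n → Option (Fin n)) (e : Fin n → ℕ) (S : Finset (Fin n)) (i : Fin n) :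
    expo ρ e S i = if ∃ k ∈ S, ρ i = some k then e i else 0 := rfl

lemma expo_le (ρ : Fin n → Option (Fin n)) (e : Fin n → ℕ) (S : Finset (Fin n)) (i : Fin n) :
    expo ρ e S i ≤ e i := by
  rw [expo_apply]
  split_ifs <;> simp

/-- the elementary symmetric pattern polynomial -/
noncomputable def patt (ρ : Fin n → Option (Fin n)) (e : Fin n → ℕ) (m : ℕ) :
    MvPolynomial (Fin n) ℤ :=
  ∑ S ∈ powersetCard m (univ : Finset (Fin n)), monomial (expo ρ e S) 1

lemma degreeOf_patt (ρ : Fin n → Option (Fin n)) (e : Fin n → ℕ) (m : ℕ) (i : Fin n) :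
    (patt ρ e m).degreeOf i ≤ e i := by
  refine (degreeOf_sum_le _ _ _).trans (Finset.sup_le fun S _ ↦ ?_)
  rw [degreeOf_monomial_eq _ _ one_ne_zero]
  exact expo_le ρ e S i

lemma mem_of_isIntegral {L : Type*} [Field L] (O : ValuationSubring L) {y : L}
    (hy : IsIntegral O y) : y ∈ O := by
  obtain ⟨z, rfl⟩ := IsIntegrallyClosed.isIntegral_iff.mp hy
  exact z.2

lemma mem_of_isIntegral_int {L : Type*} [Field L] [Algebra ℂ L] (O : ValuationSubring L) {y : ℂ}
    (hy : IsIntegral ℤ y) : algebraMap ℂ L y ∈ O :=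
  mem_of_isIntegral O (hy.map (algebraMap ℂ L).toIntAlgHom).tower_top

section
variable {L : Type*} [Field L] (O : ValuationSubring L) (x : Fin n → L) (e : Fin n → ℕ)

open Classical in
/-- the size of the dominant monomial -/
noncomputable def dom : O.ValueGroup := ∏ i, if x i ∈ O then 1 else O.valuation (x i) ^ e i

lemma one_lt_of_notMem {y : L} (hy : y ∉ O) : 1 < O.valuation y := by
  rwa [← O.valuation_le_one_iff, not_le] at hy

open Classical in
lemma fac_pos (i : Fin n) : 0 < (if x i ∈ O then 1 else O.valuation (x i) ^ e i) := by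
  split_ifs with h
  · exact one_pos
  · exact pow_pos (one_pos.trans (one_lt_of_notMem O h)) _

open Classical in
lemma fac_le {s : Fin n →₀ ℕ} (hs : ∀ i, s i ≤ e i) (i : Fin n) :
    O.valuation (x i) ^ s i ≤ if x i ∈ O then 1 else O.valuation (x i) ^ e i := by
  split_ifs with h
  · exact pow_le_one' ((O.valuation_le_one_iff _).mpr h) _
  · exact pow_le_pow_right' (one_lt_of_notMem O h).le (hs i)

lemma dom_pos : 0 < dom O x e := Finset.prod_pos fun i _ ↦ fac_pos O x e i

lemma mono_le {s : Fin n →₀ ℕ} (hs : ∀ i, s i ≤ e i) :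
    O.valuation (∏ i, x i ^ s i) ≤ dom O x e := by
  rw [map_prod]
  exact Finset.prod_le_prod' fun i _ ↦ by rw [map_pow]; exact fac_le O x e hs i

lemma mono_lt {s : Fin n →₀ ℕ} (hs : ∀ i, s i ≤ e i) {i₀ : Fin n} (h0 : x i₀ ∉ O)
    (h1 : s i₀ < e i₀) : O.valuation (∏ i, x i ^ s i) < dom O x e := by
  classical
  rw [map_prod, dom, ← Finset.mul_prod_erase _ _ (mem_univ i₀),
    ← Finset.mul_prod_erase _ _ (mem_univ i₀), if_neg h0, map_pow]
  have h2 : ∏ i ∈ univ.erase i₀, O.valuation (x i ^ s i) ≤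
      ∏ i ∈ univ.erase i₀, (if x i ∈ O then 1 else O.valuation (x i) ^ e i) :=
    Finset.prod_le_prod' fun i _ ↦ by rw [map_pow]; exact fac_le O x e hs i
  refine lt_of_le_of_lt (mul_le_mul_right h2 _) ?_
  exact mul_lt_mul_of_pos_right (pow_lt_pow_right₀ (one_lt_of_notMem O h0) h1)
    (Finset.prod_pos fun i _ ↦ fac_pos O x e i)

lemma aeval_le [Algebra ℂ L] {H : MvPolynomial (Fin n) ℂ} (hd : ∀ i, H.degreeOf i ≤ e i)
    (hi : ∀ s, IsIntegral ℤ (H.coeff s)) : O.valuation (aeval x H) ≤ dom O x e := by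
  rw [aeval_def, eval₂_eq']
  refine Valuation.map_sum_le _ fun s hs ↦ ?_
  rw [map_mul]
  refine (mul_le_mul' ((O.valuation_le_one_iff _).mpr (mem_of_isIntegral_int O (hi s)))
    (mono_le O x e fun i ↦ (monomial_le_degreeOf i hs).trans (hd i))).trans_eq (one_mul _)

end

lemma pattern_ne_zero {L : Type*} [Field L] [Algebra ℂ L] (O : ValuationSubring L) {p : ℤ}
    (hp : O.valuation (p : L) < 1) (x : Fin n → L) (ρ : Fin n → Option (Fin n))
    (h0 : ∀ i, ρ i = none → x i ∈ O)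
    (h1 : ∀ i i' k, ρ i = some k → ρ i' = some k → x i' ∈ O → x i ∈ O) {c : ℕ}
    (hc : (univ.filter fun k ↦ ∃ i, ρ i = some k).card < c) (e : Fin c → Fin n → ℕ)
    (he : ∀ m i, 1 ≤ e m i) (H : Fin c → MvPolynomial (Fin n) ℂ)
    (hd : ∀ m i, (H m).degreeOf i ≤ e m i) (hi : ∀ m s, IsIntegral ℤ ((H m).coeff s)) :
    ∃ m : Fin c, aeval x (map (Int.castRingHom ℂ) (patt ρ (e m) m) + C (p : ℂ) * H m) ≠ 0 := by
  classical
  set N : Finset (Fin n) := univ.filter fun k ↦ ∃ i, ρ i = some k ∧ x i ∉ O with hN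
  have hNc : N.card < c := by
    refine lt_of_le_of_lt (Finset.card_le_card fun k hk ↦ ?_) hc
    simp only [hN, mem_filter, mem_univ, true_and] at hk ⊢
    obtain ⟨i, hi, -⟩ := hk
    exact ⟨i, hi⟩
  refine ⟨⟨N.card, hNc⟩, ?_⟩
  set m : Fin c := ⟨N.card, hNc⟩ with hm
  have hmem : N ∈ powersetCard (m : ℕ) (univ : Finset (Fin n)) := by
    simp [hm]
  have hmain : O.valuation (∏ i, x i ^ expo ρ (e m) N i) = dom O x (e m) := by
    rw [map_prod, dom]
    refine Finset.prod_congr rfl fun i _ ↦ ?_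
    rw [map_pow, expo_apply]
    by_cases hx : x i ∈ O
    · rw [if_pos hx, if_neg, pow_zero]
      rintro ⟨k, hk, hik⟩
      simp only [hN, mem_filter, mem_univ, true_and] at hk
      obtain ⟨i', hi', hx'⟩ := hk
      exact hx' (h1 i' i k hi' hik hx)
    · rw [if_neg hx, if_pos]
      cases hρ : ρ i with
      | none => exact absurd (h0 i hρ) hx
      | some k => exact ⟨k, by simp only [hN, mem_filter, mem_univ, true_and]; exact ⟨i, hρ, hx⟩,
          rfl⟩
  have hrest : O.valuation (∑ S ∈ (powersetCard (m : ℕ) (univ : Finset (Fin n))).erase N,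
      ∏ i, x i ^ expo ρ (e m) S i) < dom O x (e m) := by
    refine Valuation.map_sum_lt' _ (dom_pos O x _) fun S hS ↦ ?_
    obtain ⟨hS1, hS2⟩ := Finset.mem_erase.mp hS
    have hcard : S.card = N.card := (mem_powersetCard.mp hS2).2
    have : ¬ N ⊆ S := fun h ↦ hS1 (Finset.eq_of_subset_of_card_le h hcard.le).symm
    obtain ⟨k, hk1, hk2⟩ := Finset.not_subset.mp this
    simp only [hN, mem_filter, mem_univ, true_and] at hk1
    obtain ⟨i, hik, hx⟩ := hk1
    refine mono_lt O x _ (expo_le ρ _ S) hx ?_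
    rw [expo_apply, if_neg]
    · exact he m i
    · rintro ⟨k', hk', h⟩
      rw [hik, Option.some_inj] at h
      exact hk2 (h ▸ hk')
  have hH : O.valuation ((p : L) * aeval x (H m)) < dom O x (e m) := by
    rw [map_mul]
    refine lt_of_le_of_lt (mul_le_mul_right (aeval_le O x _ (hd m) (hi m)) _) ?_
    simpa using mul_lt_mul_of_pos_right hp (dom_pos O x (e m))
  have hev : aeval x (map (Int.castRingHom ℂ) (patt ρ (e m) m) + C (p : ℂ) * H m) =
      ∏ i, x i ^ expo ρ (e m) N i + (∑ S ∈ (powersetCard (m : ℕ) (univ : Finset (Fin n))).erase N,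
        ∏ i, x i ^ expo ρ (e m) S i + (p : L) * aeval x (H m)) := by
    rw [← add_assoc, Finset.add_sum_erase _ (fun S ↦ ∏ i, x i ^ expo ρ (e m) S i) hmem]
    simp [patt, aeval_monomial, Finsupp.prod_fintype]
  intro hz
  have := Valuation.map_add_eq_of_lt_left O.valuation
    ((Valuation.map_add_lt _ hrest hH).trans_eq hmain.symm)
  rw [← hev, hz, map_zero, hmain] at this
  exact (dom_pos O x (e m)).ne this

lemma isIntegral_of_rel {L : Type*} [Field L] [Algebra ℂ L] (S : Subring L)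
    (hS : ∀ y : ℂ, IsIntegral ℤ y → algebraMap ℂ L y ∈ S) {Φ : Polynomial (Polynomial ℂ)}
    (hm : Φ.Monic) (hi : ∀ k i, IsIntegral ℤ ((Φ.coeff k).coeff i)) {u v : L} (hv : v ∈ S)
    (h : Φ.eval₂ (Polynomial.aeval v).toRingHom u = 0) : IsIntegral S u := by
  have hl : Φ.map (Polynomial.aeval v : Polynomial ℂ →ₐ[ℂ] L).toRingHom ∈
      Polynomial.lifts (algebraMap S L) := by
    rw [Polynomial.lifts_iff_coeff_lifts]
    intro k
    rw [Polynomial.coeff_map]
    refine ⟨⟨_, ?_⟩, rfl⟩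
    change Polynomial.aeval v (Φ.coeff k) ∈ S
    rw [Polynomial.aeval_eq_sum_range]
    refine sum_mem fun i _ ↦ ?_
    rw [Algebra.smul_def]
    exact mul_mem (hS _ (hi k i)) (pow_mem hv _)
  obtain ⟨r, hr1, -, hr3⟩ := Polynomial.lifts_and_degree_eq_and_monic hl (hm.map _)
  refine ⟨r, hr3, ?_⟩
  rw [Polynomial.eval₂_eq_eval_map, hr1, ← Polynomial.eval₂_eq_eval_map, h]

lemma exists_valuationSubring {L ι : Type*} [Field L] [Algebra ℂ L] {y : ι → L}
    (hy : AlgebraicIndependent ℂ y) {p : ℤ} (hp : 2 ≤ p) :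
    ∃ O : ValuationSubring L, (∀ i, y i ∈ O) ∧ O.valuation (p : L) < 1 := by
  let φ : MvPolynomial ι ℤ →+* L := (aeval y : MvPolynomial ι ℤ →ₐ[ℤ] L).toRingHom
  have hφ : Function.Injective φ := by
    have : φ = (aeval y : MvPolynomial ι ℂ →ₐ[ℂ] L).toRingHom.comp (map (Int.castRingHom ℂ)) := by
      ext <;> simp [φ]
    rw [this, RingHom.coe_comp]
    exact Function.Injective.comp hy (map_injective _ Int.cast_injective)
  have hne : Ideal.span {(p : φ.range)} ≠ ⊤ := by
    rw [Ne, Ideal.span_singleton_eq_top, isUnit_iff_exists_inv]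
    rintro ⟨⟨_, f, rfl⟩, hf⟩
    have h1 : φ (p * f) = φ 1 := by
      simpa using congrArg Subtype.val hf
    have h2 := congrArg constantCoeff (hφ h1)
    simp only [map_mul, map_intCast, map_one, Int.cast_id] at h2
    have := Int.eq_one_or_neg_one_of_mul_eq_one h2
    omega
  obtain ⟨O, hO1, hO2⟩ := Ideal.image_subset_nonunits_valuationSubring _ hne
  refine ⟨O, fun i ↦ hO1 ⟨X i, by simp [φ]⟩, ?_⟩
  exact O.mem_nonunits_iff.mp (hO2 ⟨_, Ideal.subset_span rfl, by simp⟩)

/-- the shape of the equations at the primes attached to the labellings -/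
def Shape {c : ℕ} (e : Fin c → Fin n → ℕ) (F : Fin c → MvPolynomial (Fin n) ℂ) : Prop :=
  ∀ ρ : Fin n → Option (Fin n), ∃ (p : ℤ) (H : Fin c → MvPolynomial (Fin n) ℂ), 2 ≤ p ∧
    (∀ m i, (H m).degreeOf i ≤ e m i) ∧ (∀ m s, IsIntegral ℤ ((H m).coeff s)) ∧
    ∀ m, F m = map (Int.castRingHom ℂ) (patt ρ (e m) m) + C (p : ℂ) * H m

theorem dim_add_le {c : ℕ} {e : Fin c → Fin n → ℕ} (he : ∀ m i, 1 ≤ e m i)
    {F : Fin c → MvPolynomial (Fin n) ℂ} (hF : Shape e F) (P : Ideal (MvPolynomial (Fin n) ℂ))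
    [P.IsPrime] (hFP : ∀ m, F m ∈ P) {κ : Type} [DecidableEq κ] (cl : Fin n → Option κ)
    (h0 : ∀ i, cl i = none → ∃ w : ℂ, IsIntegral ℤ w ∧ X i - C w ∈ P)
    (h1 : ∀ i i' k, cl i = some k → cl i' = some k → ∃ Φ : Polynomial (Polynomial ℂ), Φ.Monic ∧
      (∀ k i, IsIntegral ℤ ((Φ.coeff k).coeff i)) ∧
      Φ.eval₂ (Polynomial.aeval (X i' : MvPolynomial (Fin n) ℂ)).toRingHom (X i) ∈ P) :
    ringKrullDim (MvPolynomial (Fin n) ℂ ⧸ P) + c ≤
      (((univ.image cl).erase none).card : WithBot ℕ∞) := by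
  classical
  set A := MvPolynomial (Fin n) ℂ ⧸ P with hA
  let L := FractionRing A
  let π : MvPolynomial (Fin n) ℂ →ₐ[ℂ] L :=
    (IsScalarTower.toAlgHom ℂ A L).comp (Ideal.Quotient.mkₐ ℂ P)
  have hπ : ∀ f ∈ P, π f = 0 := by
    intro f hf
    change algebraMap A L (Ideal.Quotient.mk P f) = 0
    rw [Ideal.Quotient.eq_zero_iff_mem.mpr hf, map_zero]
  let x : Fin n → L := fun i ↦ π (X i)
  have hπx : ∀ f, aeval x f = π f := fun f ↦ by
    rw [show aeval x = π from by ext i; simp [x]]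
  have h0' : ∀ i, cl i = none → ∃ w : ℂ, IsIntegral ℤ w ∧ x i = algebraMap ℂ L w := by
    intro i hi
    obtain ⟨w, hw1, hw2⟩ := h0 i hi
    have := hπ _ hw2
    rw [map_sub, sub_eq_zero] at this
    exact ⟨w, hw1, this.trans (π.commutes w)⟩
  have h1' : ∀ (S : Subring L), (∀ y : ℂ, IsIntegral ℤ y → algebraMap ℂ L y ∈ S) →
      ∀ i i' k, cl i = some k → cl i' = some k → x i' ∈ S → IsIntegral S (x i) := by
    intro S hS i i' k hi hi' hx
    obtain ⟨Φ, hΦ1, hΦ2, hΦ3⟩ := h1 i i' k hi hi'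
    refine isIntegral_of_rel S hS hΦ1 hΦ2 hx ?_
    have := hπ _ hΦ3
    rw [← this]
    have h3 := Polynomial.hom_eval₂ Φ
      (Polynomial.aeval (X i' : MvPolynomial (Fin n) ℂ)).toRingHom π.toRingHom (X i)
    refine Eq.trans ?_ h3.symm
    congr 1
    ext a
    · simp
    · simp [x]
  -- a transcendence basis among the coordinates
  have htop : Algebra.adjoin ℂ (Set.range fun i ↦ Ideal.Quotient.mk P (X i)) = ⊤ := by
    rw [Algebra.adjoin_range_eq_range_aeval, AlgHom.range_eq_top]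
    rw [show aeval (fun i ↦ Ideal.Quotient.mk P (X i)) = Ideal.Quotient.mkₐ ℂ P from by
      ext i; simp]
    exact Ideal.Quotient.mk_surjective
  have : Algebra.IsAlgebraic (Algebra.adjoin ℂ (Set.range fun i ↦ Ideal.Quotient.mk P (X i))) A := by
    rw [htop]
    exact ⟨fun a ↦ isAlgebraic_algebraMap (⟨a, trivial⟩ : (⊤ : Subalgebra ℂ A))⟩
  obtain ⟨t, ht1, ht2⟩ := exists_isTranscendenceBasis_subset (R := ℂ)
    (Set.range fun i ↦ Ideal.Quotient.mk P (X i))
  choose ι hι using fun a : t ↦ ht1 a.2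
  have hfin : Finite t := ((Set.finite_range _).subset ht1).to_subtype
  let _ : Fintype t := Fintype.ofFinite t
  obtain ⟨s, hs1, hs2⟩ := exists_dim_trdeg ℂ A
  have hst : s = Fintype.card t := by
    have := ht2.cardinalMk_eq_trdeg
    rw [hs2, Cardinal.mk_fintype] at this
    exact_mod_cast this.symm
  have hind : AlgebraicIndependent ℂ (fun a : t ↦ x (ι a)) := by
    have := ht2.1.map' (f := IsScalarTower.toAlgHom ℂ A L) (IsFractionRing.injective A L)
    convert this using 1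
    funext a
    simp only [x, π, AlgHom.comp_apply, Function.comp_apply, ← hι a]
    rfl
  have hnone : ∀ a : t, cl (ι a) ≠ none := by
    intro a ha
    obtain ⟨w, -, hw⟩ := h0' _ ha
    exact hind.transcendental a (hw ▸ isAlgebraic_algebraMap w)
  have hinj : Function.Injective fun a : t ↦ cl (ι a) := by
    intro a b hab
    by_contra hne
    obtain ⟨k, hk⟩ := Option.ne_none_iff_exists'.mp (hnone a)
    have h3 := hind.transcendental_adjoin (s := {b}) (i := a) hne
    have h4 := h1' (Algebra.adjoin ℂ ((fun a : t ↦ x (ι a)) '' {b})).toSubring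
      (fun y _ ↦ Subalgebra.algebraMap_mem _ y) (ι a) (ι b) k hk (hab.symm.trans hk)
      (Algebra.subset_adjoin ⟨b, rfl, rfl⟩)
    exact h3 (IsIntegral.isAlgebraic h4)
  -- the new labelling
  obtain ⟨rep, hrep, hrep'⟩ : ∃ rep : Fin n → Fin n, (∀ i, cl (rep i) = cl i) ∧
      ∀ i i', cl i = cl i' → rep i = rep i' := by
    refine ⟨fun i ↦ (Set.rangeSplitting cl) ⟨cl i, i, rfl⟩,
      fun i ↦ Set.apply_rangeSplitting cl _, fun i i' h ↦ ?_⟩
    simp only [h]
  let ρ : Fin n → Option (Fin n) := fun i ↦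
    if cl i = none ∨ ∃ a : t, cl (ι a) = cl i then none else some (rep i)
  have hρ : ∀ i k, ρ i = some k → k = rep i ∧ cl i ≠ none ∧ ∀ a : t, cl (ι a) ≠ cl i := by
    intro i k h
    simp only [ρ] at h
    split_ifs at h with h'
    push Not at h'
    exact ⟨(Option.some_inj.mp h).symm, h'.1, h'.2⟩
  obtain ⟨p, H, hp, hH1, hH2, hH3⟩ := hF ρ
  obtain ⟨O, hO1, hO2⟩ := exists_valuationSubring hind hp
  have hO3 : ∀ i i' k, cl i = some k → cl i' = some k → x i' ∈ O → x i ∈ O :=
    fun i i' k hi hi' hx ↦ mem_of_isIntegral O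
      (h1' O.toSubring (fun y hy ↦ mem_of_isIntegral_int O hy) i i' k hi hi' hx)
  have hc : c ≤ (univ.filter fun k ↦ ∃ i, ρ i = some k).card := by
    by_contra hc
    refine (pattern_ne_zero O hO2 x ρ ?_ ?_ (not_le.mp hc) e he H hH1 hH2).elim
      fun m hm ↦ hm (by rw [← hH3, hπx, hπ _ (hFP m)])
    · intro i hi
      simp only [ρ, ite_eq_left_iff, reduceCtorEq, imp_false, not_not] at hi
      by_cases hn : cl i = none
      · obtain ⟨w, hw1, hw2⟩ := h0' i hn
        exact hw2 ▸ mem_of_isIntegral_int O hw1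
      · obtain ⟨a, ha⟩ := hi.resolve_left hn
        obtain ⟨k, hk⟩ := Option.ne_none_iff_exists'.mp hn
        exact hO3 i (ι a) k hk (ha.trans hk) (hO1 a)
    · intro i i' k hi hi' hx
      obtain ⟨e1, e2, -⟩ := hρ i k hi
      obtain ⟨e3, -, -⟩ := hρ i' k hi'
      obtain ⟨k', hk'⟩ := Option.ne_none_iff_exists'.mp e2
      refine hO3 i i' k' hk' ?_ hx
      rw [← hrep i', ← e3, e1, hrep, hk']
  have hcount : Fintype.card t + (univ.filter fun k ↦ ∃ i, ρ i = some k).card ≤
      ((univ.image cl).erase none).card := by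
    have e1 : (univ.image fun a : t ↦ cl (ι a)).card = Fintype.card t := by
      rw [Finset.card_image_of_injective _ hinj, card_univ]
    have e2 : ((univ.filter fun k ↦ ∃ i, ρ i = some k).image cl).card =
        (univ.filter fun k ↦ ∃ i, ρ i = some k).card := by
      refine Finset.card_image_of_injOn fun k hk k' hk' hkk ↦ ?_
      simp only [coe_filter, mem_univ, true_and, Set.mem_ofPred_eq] at hk hk'
      obtain ⟨i, hi⟩ := hk
      obtain ⟨i', hi'⟩ := hk'
      rw [(hρ i k hi).1, (hρ i' k' hi').1] at hkk ⊢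
      rw [hrep, hrep] at hkk
      exact hrep' _ _ hkk
    rw [← e1, ← e2, ← Finset.card_union_of_disjoint]
    · refine Finset.card_le_card fun o ho ↦ ?_
      simp only [mem_union, mem_image, mem_univ, true_and, mem_filter, mem_erase] at ho ⊢
      rcases ho with ⟨a, rfl⟩ | ⟨k, ⟨i, hi⟩, rfl⟩
      · exact ⟨hnone a, _, rfl⟩
      · rw [(hρ i k hi).1, hrep]
        exact ⟨(hρ i k hi).2.1, _, rfl⟩
    · rw [Finset.disjoint_left]
      intro o ho ho'
      simp only [mem_image, mem_univ, true_and, mem_filter] at ho ho'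
      obtain ⟨a, rfl⟩ := ho
      obtain ⟨k, ⟨i, hi⟩, hk⟩ := ho'
      rw [(hρ i k hi).1, hrep] at hk
      exact (hρ i k hi).2.2 a hk.symm
  rw [hs1]
  exact_mod_cast (by omega : s + c ≤ ((univ.image cl).erase none).card)

end Pool.Agent.Lib.MP_0704bf_ag
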